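import Pool.Agent.Helper59.TB.FinalOf
import Pool.Agent.Helper55.TB.Union

/-!
# Project TB, module N: the final statement
-/

set_option autoImplicit false

namespace Pool.Agent.Lead.TB

open Finset Pool.Agent.Helper41.Perm

theorem final (n : ℕ) (hn : 1 ≤ n) :
    (Nat.card {A : (Fin 3 → Fin n) → Bool // IsPerm (d := 2) A ∧
        ∃ T : Fin 3 → Finset (Fin n), BoxEmpty (d := 2) A T ∧
          128 * (n : ℝ) ^ 2 * (1 + Real.log (side T) ^ 2) < ∏ i, ((T i).card : ℝ)} : ℝ) ≤
      Real.exp (-(2 * n)) * (Nat.card {A : (Fin 3 → Fin n) → Bool // IsPerm (d := 2) A} : ℝ) :=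
  h59_final_of n (union_bound hn)

end Pool.Agent.Lead.TB
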