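import Pool.Agent.Lead.TB.Defs
import Pool.Agent.Helper41.Perm.Defs
import Pool.Agent.Helper72.TB.Arr

/-!
# Project TB, module N: the final statement, from the union bound
-/

set_option autoImplicit false

namespace Pool.Agent.Lead.TB

open Finset Pool.Agent.Helper41.Perm

theorem isPerm_perm {n : ℕ} (π : Equiv.Perm (Fin 3)) (A : (Fin 3 → Fin n) → Bool)
    (hA : IsPerm (d := 2) A) : IsPerm (d := 2) fun α => A fun i => α (π i) := by
  intro i α
  have h1 : ∀ x : Fin n, (fun j => Function.update α i x (π j)) =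
      Function.update (fun j => α (π j)) (π.symm i) x := by
    intro x
    funext j
    by_cases hj : π j = i
    · subst hj
      simp
    · have hj' : j ≠ π.symm i := fun h => hj (by rw [h, Equiv.apply_symm_apply])
      rw [Function.update_of_ne hj, Function.update_of_ne hj']
  have h2 := hA (π.symm i) (fun j => α (π j))
  simpa only [h1] using h2

theorem boxEmpty_perm {n : ℕ} (π : Equiv.Perm (Fin 3)) (A : (Fin 3 → Fin n) → Bool)
    (T : Fin 3 → Finset (Fin n)) :
    BoxEmpty (d := 2) (fun α => A fun i => α (π i)) T ↔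
      BoxEmpty (d := 2) A fun i => T (π i) := by
  constructor
  · intro h α hα
    have h1 := h (fun i => α (π.symm i)) (fun i => by
      have h2 := hα (π.symm i)
      simpa using h2)
    simpa using h1
  · intro h α hα
    exact h (fun i => α (π i)) fun i => hα (π i)

/-- The minimum of the three sides. -/
def side {n : ℕ} (T : Fin 3 → Finset (Fin n)) : ℕ := min (T 0).card (min (T 1).card (T 2).card)

/-- A large empty box with its smallest side in the last coordinate. -/
def h59_bad {n : ℕ} (A : (Fin 3 → Fin n) → Bool) : Prop :=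
  ∃ T : Fin 3 → Finset (Fin n), (T 2).card ≤ (T 0).card ∧ (T 2).card ≤ (T 1).card ∧
    BoxEmpty (d := 2) A T ∧
    128 * (n : ℝ) ^ 2 * (1 + Real.log (T 2).card ^ 2) < ∏ i, ((T i).card : ℝ)

theorem h59_move {n : ℕ} (A : (Fin 3 → Fin n) → Bool) (T : Fin 3 → Finset (Fin n))
    (hT : BoxEmpty (d := 2) A T)
    (hv : 128 * (n : ℝ) ^ 2 * (1 + Real.log (side T) ^ 2) < ∏ i, ((T i).card : ℝ)) :
    ∃ j : Fin 3, h59_bad fun α => A fun i => α (Equiv.swap j 2 i) := by
  have key : ∀ j : Fin 3, (T j).card = side T → h59_bad fun α => A fun i => α (Equiv.swap j 2 i) := by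
    intro j hj
    have hmin : ∀ i : Fin 3, side T ≤ (T i).card := by
      intro i
      fin_cases i
      · exact min_le_left _ _
      · exact (min_le_right _ _).trans (min_le_left _ _)
      · exact (min_le_right _ _).trans (min_le_right _ _)
    refine ⟨fun i => T (Equiv.swap j 2 i), ?_, ?_, ?_, ?_⟩
    · simp only [Equiv.swap_apply_right, hj]
      exact hmin _
    · simp only [Equiv.swap_apply_right, hj]
      exact hmin _
    · rw [boxEmpty_perm]
      simpa only [Equiv.swap_apply_self] using hT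
    · simp only [Equiv.swap_apply_right, hj]
      have h1 : ∏ i, ((T (Equiv.swap j 2 i)).card : ℝ) = ∏ i, ((T i).card : ℝ) :=
        Equiv.prod_comp (Equiv.swap j 2) fun i => ((T i).card : ℝ)
      rw [h1]
      exact hv
  have h3 : (T 0).card = side T ∨ (T 1).card = side T ∨ (T 2).card = side T := by
    simp only [side]
    omega
  rcases h3 with h | h | h
  · exact ⟨0, key 0 h⟩
  · exact ⟨1, key 1 h⟩
  · exact ⟨2, key 2 h⟩

/-- The statement of the union bound. -/
def h59_Union (n : ℕ) : Prop :=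
    (((ls n).filter fun σ => ∃ T₁ T₂ T₃ : Finset (Fin n), T₃.card ≤ T₁.card ∧ T₃.card ≤ T₂.card ∧
        cnt σ T₁ T₂ T₃ = 0 ∧
        128 * (n : ℝ) ^ 2 * (1 + Real.log T₃.card ^ 2) <
          (T₁.card : ℝ) * T₂.card * T₃.card).card : ℝ) ≤
      Real.exp (-(2 * n)) / 3 * ((ls n).card : ℝ)

theorem h59_final_of (n : ℕ) (hub : h59_Union n) :
    (Nat.card {A : (Fin 3 → Fin n) → Bool // IsPerm (d := 2) A ∧
        ∃ T : Fin 3 → Finset (Fin n), BoxEmpty (d := 2) A T ∧
          128 * (n : ℝ) ^ 2 * (1 + Real.log (side T) ^ 2) < ∏ i, ((T i).card : ℝ)} : ℝ) ≤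
      Real.exp (-(2 * n)) * (Nat.card {A : (Fin 3 → Fin n) → Bool // IsPerm (d := 2) A} : ℝ) := by
  classical
  let X := (Fin 3 → Fin n) → Bool
  let Pm : Set X := {A | IsPerm (d := 2) A}
  let B3 : Set X := {A | IsPerm (d := 2) A ∧ h59_bad A}
  let tw : Fin 3 → X → X := fun j A α => A fun i => α (Equiv.swap j 2 i)
  let Cj : Fin 3 → Set X := fun j => {A | IsPerm (d := 2) A ∧ h59_bad (tw j A)}
  let Bd : Set X := {A | IsPerm (d := 2) A ∧
        ∃ T : Fin 3 → Finset (Fin n), BoxEmpty (d := 2) A T ∧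
          128 * (n : ℝ) ^ 2 * (1 + Real.log (side T) ^ 2) < ∏ i, ((T i).card : ℝ)}
  have htw : ∀ j A, tw j (tw j A) = A := by
    intro j A
    funext α
    show A (fun i => α (Equiv.swap j 2 (Equiv.swap j 2 i))) = A α
    simp only [Equiv.swap_apply_self]
  have hBd : Bd ⊆ Cj 0 ∪ Cj 1 ∪ Cj 2 := by
    rintro A ⟨hA, T, hT, hv⟩
    obtain ⟨j, hj⟩ := h59_move A T hT hv
    fin_cases j
    · exact Or.inl (Or.inl ⟨hA, hj⟩)
    · exact Or.inl (Or.inr ⟨hA, hj⟩)
    · exact Or.inr ⟨hA, hj⟩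
  have hCj : ∀ j, (Cj j).ncard ≤ B3.ncard := by
    intro j
    refine Set.ncard_le_ncard_of_injOn (tw j) ?_ ?_ (Set.toFinite _)
    · rintro A ⟨hA, hb⟩
      exact ⟨isPerm_perm _ A hA, hb⟩
    · intro A _ A' _ h
      rw [← htw j A, ← htw j A', h]
  let L := (ls n).filter fun σ => ∃ T₁ T₂ T₃ : Finset (Fin n), T₃.card ≤ T₁.card ∧
        T₃.card ≤ T₂.card ∧ cnt σ T₁ T₂ T₃ = 0 ∧
        128 * (n : ℝ) ^ 2 * (1 + Real.log T₃.card ^ 2) <
          (T₁.card : ℝ) * T₂.card * T₃.card
  have hB3 : B3.ncard ≤ L.card := by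
    have h1 : B3 ⊆ ((L.image arr : Finset X) : Set X) := by
      rintro A ⟨hA, T, h20, h21, hT, hv⟩
      obtain ⟨σ, hσ, rfl⟩ := arr_surj A hA
      rw [coe_image]
      refine ⟨σ, ?_, rfl⟩
      rw [mem_coe, mem_filter]
      refine ⟨hσ, T 0, T 1, T 2, h20, h21, (arr_empty T).1 hT, ?_⟩
      rwa [Fin.prod_univ_three] at hv
    calc B3.ncard ≤ ((L.image arr : Finset X) : Set X).ncard :=
          Set.ncard_le_ncard h1 (Set.toFinite _)
      _ = (L.image arr).card := Set.ncard_coe_finset _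
      _ ≤ L.card := card_image_le
  have hPm : (ls n).card ≤ Pm.ncard := by
    have h1 : (((ls n).image arr : Finset X) : Set X) ⊆ Pm := by
      intro A hA
      rw [coe_image] at hA
      obtain ⟨σ, hσ, rfl⟩ := hA
      exact arr_isPerm hσ
    calc (ls n).card = ((ls n).image arr).card :=
          (card_image_of_injective _ fun σ τ h => arr_inj σ τ h).symm
      _ = (((ls n).image arr : Finset X) : Set X).ncard := (Set.ncard_coe_finset _).symm
      _ ≤ Pm.ncard := Set.ncard_le_ncard h1 (Set.toFinite _)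
  have hsum : Bd.ncard ≤ 3 * B3.ncard := by
    calc Bd.ncard ≤ (Cj 0 ∪ Cj 1 ∪ Cj 2).ncard := Set.ncard_le_ncard hBd (Set.toFinite _)
      _ ≤ (Cj 0 ∪ Cj 1).ncard + (Cj 2).ncard := Set.ncard_union_le _ _
      _ ≤ (Cj 0).ncard + (Cj 1).ncard + (Cj 2).ncard := by
          gcongr
          exact Set.ncard_union_le _ _
      _ ≤ 3 * B3.ncard := by
          have := hCj 0
          have := hCj 1
          have := hCj 2
          omega
  have hub := hub
  unfold h59_Union at hub
  have e1 : Nat.card {A : (Fin 3 → Fin n) → Bool // IsPerm (d := 2) A ∧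
        ∃ T : Fin 3 → Finset (Fin n), BoxEmpty (d := 2) A T ∧
          128 * (n : ℝ) ^ 2 * (1 + Real.log (side T) ^ 2) < ∏ i, ((T i).card : ℝ)} = Bd.ncard :=
    Nat.card_coe_set_eq Bd
  have e2 : Nat.card {A : (Fin 3 → Fin n) → Bool // IsPerm (d := 2) A} = Pm.ncard :=
    Nat.card_coe_set_eq Pm
  rw [e1, e2]
  have h1 : (Bd.ncard : ℝ) ≤ 3 * (L.card : ℝ) := by
    have : Bd.ncard ≤ 3 * L.card := by omega
    exact_mod_cast this
  have h2 : (L.card : ℝ) ≤ Real.exp (-(2 * n)) / 3 * ((ls n).card : ℝ) := by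
    convert hub using 3
  have h3 : ((ls n).card : ℝ) ≤ (Pm.ncard : ℝ) := by exact_mod_cast hPm
  have he : 0 < Real.exp (-(2 * (n : ℝ))) := Real.exp_pos _
  calc (Bd.ncard : ℝ) ≤ 3 * (L.card : ℝ) := h1
    _ ≤ 3 * (Real.exp (-(2 * n)) / 3 * ((ls n).card : ℝ)) := by linarith
    _ = Real.exp (-(2 * n)) * ((ls n).card : ℝ) := by ring
    _ ≤ _ := by gcongr

end Pool.Agent.Lead.TB
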